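import Pool.Agent.H37R3.K4.TAFin

/-!
# Turán's `(3,4)`-problem: an extension of Razborov's theorem on quadruples with one edge

`graphA` and `graphB` are two 3-graphs on six vertices, and `fiveX` is a 3-graph on five vertices
contained in both; the vertices `1, 2, 3, 4` of `fiveX` span exactly one edge. For every
`K_4^3`-free 3-graph `H` on `n` vertices, `54 n³ |H| ≤ 5 n⁶ + 648 (N_A + N_B)` with the numbers
`N_A`, `N_B` of induced copies. So Turán's bound `|H| ≤ (5/54) n³` holds if `H` has no induced copy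
of `fiveX`, in particular if no four vertices span exactly one edge (Razborov).
-/

set_option autoImplicit false
set_option maxRecDepth 100000
open Finset
open scoped Classical

namespace Pool.Agent.Results.MP_f1799f_co.OneEdgeExtension

/-- The 3-graph `H` has no four vertices spanning all four triples. -/
def K43Free {n : ℕ} (H : Finset (Finset (Fin n))) : Prop :=
  ∀ S : Finset (Fin n), S.card = 4 → ∃ s ⊆ S, s.card = 3 ∧ s ∉ H

/-- The set `S` of vertices induces a copy of the 3-graph `F` in `H`: there is a bijection from the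
vertices of `F` to `S` that maps edges to edges and non-edges to non-edges. -/
def Induces {k n : ℕ} (F : Finset (Finset (Fin k))) (H : Finset (Finset (Fin n)))
    (S : Finset (Fin n)) : Prop :=
  ∃ f : Fin k → Fin n, Function.Injective f ∧ univ.image f = S ∧
    ∀ t : Finset (Fin k), t.card = 3 → (t.image f ∈ H ↔ t ∈ F)

/-- The number of sets of vertices which induce a copy of `F` in `H`. -/
noncomputable def copies {k n : ℕ} (F : Finset (Finset (Fin k))) (H : Finset (Finset (Fin n))) : ℕ :=
  ((univ : Finset (Finset (Fin n))).filter fun S => Induces F H S).card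

/-- The 3-graph on `0, ..., 5` with non-edges 023 014 234 015 235 145 245 345. -/
def graphA : Finset (Finset (Fin 6)) :=
  {{0, 1, 2}, {0, 1, 3}, {1, 2, 3}, {0, 2, 4}, {1, 2, 4}, {0, 3, 4}, {1, 3, 4}, {0, 2, 5}, {1, 2, 5}, {0, 3, 5}, {1, 3, 5}, {0, 4, 5}}

/-- The 3-graph on `0, ..., 5` with non-edges 023 124 134 015 235 245 345. -/
def graphB : Finset (Finset (Fin 6)) :=
  {{0, 1, 2}, {0, 1, 3}, {1, 2, 3}, {0, 1, 4}, {0, 2, 4}, {0, 3, 4}, {2, 3, 4}, {0, 2, 5}, {1, 2, 5}, {0, 3, 5}, {1, 3, 5}, {0, 4, 5}, {1, 4, 5}}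

/-- The five-vertex 3-graph with edges 012, 013, 123, 014, 024, 034. -/
def fiveX : Finset (Finset (Fin 5)) := {{0, 1, 2}, {0, 1, 3}, {1, 2, 3}, {0, 1, 4}, {0, 2, 4}, {0, 3, 4}}

theorem sub_of {n : ℕ} {H : Finset (Finset (Fin n))} {F : Finset (Finset (Fin 6))}
    {X : Finset (Finset (Fin 5))} (g : Fin 5 → Fin 6) (hg : Function.Injective g)
    (hX : ∀ t : Finset (Fin 5), t.card = 3 → (t.image g ∈ F ↔ t ∈ X))
    (h : ∀ S, ¬ Induces X H S) : copies F H = 0 := by
  unfold copies
  rw [card_eq_zero, filter_eq_empty_iff]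
  rintro S - ⟨f, hf, -, hfe⟩
  refine h _ ⟨f ∘ g, hf.comp hg, rfl, ?_⟩
  intro t ht
  rw [← hX t ht, ← hfe _ (by rw [card_image_of_injective _ hg, ht]), image_image]

theorem img {k n : ℕ} (f : Fin k → Fin n) (t : Finset (Fin k)) :
    @Finset.image _ _ (fun a b => Classical.propDecidable (a = b)) f t =
      @Finset.image _ _ (instDecidableEqFin n) f t := by
  ext v
  simp only [mem_image]

theorem ind_iff {n : ℕ} (F : Finset (Finset (Fin 6))) (H : Finset (Finset (Fin n)))
    (S : Finset (Fin n)) : Pool.Agent.H37R3.Cop.Induces F H S ↔ Induces F H S := by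
  unfold Pool.Agent.H37R3.Cop.Induces Induces
  simp only [img]

theorem copies_six {n : ℕ} (F : Finset (Finset (Fin 6))) (H : Finset (Finset (Fin n))) :
    (((univ : Finset (Fin n)).powersetCard 6).filter fun S =>
      Pool.Agent.H37R3.Cop.Induces F H S).card = copies F H := by
  unfold copies
  congr 1
  ext S
  rw [mem_filter, mem_filter, mem_powersetCard, ind_iff]
  constructor
  · rintro ⟨-, h⟩
    exact ⟨mem_univ _, h⟩
  · rintro ⟨-, h⟩
    refine ⟨⟨subset_univ _, ?_⟩, h⟩
    obtain ⟨f, hf, hS, -⟩ := h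
    rw [← hS, card_image_of_injective _ hf]; rfl

/-- Every `K_4^3`-free 3-graph `H` on `n` vertices satisfies
`54 n³ |H| ≤ 5 n⁶ + 648 (N_A + N_B)`, where `N_A` and `N_B` are the numbers of induced copies of
`graphA` and `graphB` in `H`. If `H` contains no induced copy of `fiveX`, then
`|H| ≤ (5/54) n³`. -/
theorem result :
    (∀ (n : ℕ) (H : Finset (Finset (Fin n))), (∀ e ∈ H, e.card = 3) → K43Free H →
      54 * n ^ 3 * H.card ≤ 5 * n ^ 6 + 648 * (copies graphA H + copies graphB H)) ∧
    (∀ (n : ℕ) (H : Finset (Finset (Fin n))), (∀ e ∈ H, e.card = 3) → K43Free H →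
      (∀ S, ¬ Induces fiveX H S) → 54 * H.card ≤ 5 * n ^ 3) := by
  have main : ∀ (n : ℕ) (H : Finset (Finset (Fin n))), (∀ e ∈ H, e.card = 3) → K43Free H →
      54 * n ^ 3 * H.card ≤ 5 * n ^ 6 + 648 * (copies graphA H + copies graphB H) := by
    intro n H h3 hK
    rcases Nat.eq_zero_or_pos n with rfl | hn
    · simp
    · have h := Pool.Agent.H37R3.TA.main (V := Fin n) h3 hK (by rw [Fintype.card_fin]; exact hn)
      rw [Fintype.card_fin, copies_six, copies_six] at h
      exact h
  refine ⟨main, ?_⟩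
  intro n H h3 hK hX
  rcases Nat.eq_zero_or_pos n with rfl | hn
  · have hH : H = ∅ := by
      rw [eq_empty_iff_forall_notMem]
      intro e he
      have h1 := h3 e he
      have h2 : e.card ≤ (univ : Finset (Fin 0)).card := card_le_univ e
      rw [card_univ, Fintype.card_fin] at h2
      omega
    rw [hH]
    simp
  · have h := main n H h3 hK
    rw [sub_of ![2, 0, 4, 5, 1] (by decide) (by decide +kernel) hX,
      sub_of ![0, 4, 2, 3, 5] (by decide) (by decide +kernel) hX] at h
    have h1 : n ^ 3 * (54 * H.card) ≤ n ^ 3 * (5 * n ^ 3) := by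
      calc n ^ 3 * (54 * H.card) = 54 * n ^ 3 * H.card := by ring
        _ ≤ 5 * n ^ 6 + 648 * (0 + 0) := h
        _ = n ^ 3 * (5 * n ^ 3) := by ring
    exact Nat.le_of_mul_le_mul_left h1 (by positivity)

end Pool.Agent.Results.MP_f1799f_co.OneEdgeExtension
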