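import Pool.Agent.H37R3.Lag.PAFin
import Pool.Agent.H37R3.Lag.PBFin

/-!
# Turán's `(3,4)`-problem with one further excluded 3-graph on six vertices

`graphA` and `graphB` are two 3-graphs on six vertices with 13 edges. If a `K_4^3`-free 3-graph `H`
on `n` vertices contains no induced copy of `graphA`, or if it contains no induced copy of `graphB`,
then `|H| ≤ (0.5556/6) n³`. Turán's conjecture is the bound with `5/9 = 0.5555...` for all
`K_4^3`-free 3-graphs, and Turán's construction contains neither of the two 3-graphs.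

Outline: the sum of squares method for six-vertex structures is combined with the fact that in a
structure with the maximum number of edges all degrees are equal up to `O(n)`, since a vertex can be
replaced by a clone of another one. This is legitimate since the two 3-graphs (and `K_4^3`) have no
pair of vertices which is contained in no edge.
-/

set_option autoImplicit false
set_option maxRecDepth 100000
open Finset
open scoped Classical

namespace Pool.Agent.Results.MP_f1799f_co.OneSixVertexGraph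

/-- The 3-graph `H` has no four vertices spanning all four triples. -/
def K43Free {n : ℕ} (H : Finset (Finset (Fin n))) : Prop :=
  ∀ S : Finset (Fin n), S.card = 4 → ∃ s ⊆ S, s.card = 3 ∧ s ∉ H

/-- The 3-graph `H` contains an induced copy of the 3-graph `F`: there is an injection of the
vertices of `F` that maps edges to edges and non-edges to non-edges. -/
def Induces {k n : ℕ} (F : Finset (Finset (Fin k))) (H : Finset (Finset (Fin n))) : Prop :=
  ∃ f : Fin k → Fin n, Function.Injective f ∧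
    ∀ t : Finset (Fin k), t.card = 3 → (t.image f ∈ H ↔ t ∈ F)

/-- The 3-graph on `0, ..., 5` with non-edges 012 013 234 235 145 245 345. -/
def graphA : Finset (Finset (Fin 6)) :=
  (univ : Finset (Fin 6)).powersetCard 3 \
    {{0, 1, 2}, {0, 1, 3}, {2, 3, 4}, {2, 3, 5}, {1, 4, 5}, {2, 4, 5}, {3, 4, 5}}

/-- The 3-graph on `0, ..., 5` with non-edges 023 124 134 015 235 245 345. -/
def graphB : Finset (Finset (Fin 6)) :=
  (univ : Finset (Fin 6)).powersetCard 3 \
    {{0, 2, 3}, {1, 2, 4}, {1, 3, 4}, {0, 1, 5}, {2, 3, 5}, {2, 4, 5}, {3, 4, 5}}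

theorem img {k n : ℕ} (f : Fin k → Fin n) (t : Finset (Fin k)) :
    @Finset.image _ _ (fun a b => Classical.propDecidable (a = b)) f t =
      @Finset.image _ _ (instDecidableEqFin n) f t := by
  ext v
  simp only [mem_image]

theorem of_copy {n : ℕ} {H : Finset (Finset (Fin n))} (h3 : ∀ e ∈ H, e.card = 3) {m : ℕ}
    {F : Finset (Finset (Fin 6))} (hm : Pool.Agent.H37R3.Cop.Mask m F) (h : ¬ Induces F H) :
    Pool.Agent.H37R3.LagP.NoP [m] (Pool.Agent.H122R2.N6.tri H) := by
  intro x m' hm' hc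
  rw [List.mem_singleton] at hm'
  subst hm'
  obtain ⟨f, hf, -, hfe⟩ := Pool.Agent.H37R3.Cop.induces_of_copy h3 hm hc
  refine h ⟨f, hf, fun t ht => ?_⟩
  rw [← hfe t ht, ← img]

theorem noB {n : ℕ} {H : Finset (Finset (Fin n))} (h3 : ∀ e ∈ H, e.card = 3) (hK : K43Free H) :
    Pool.Agent.H37R3.Lag.NoB Pool.Agent.H122R2.N6.five (Pool.Agent.H122R2.N6.tri H) := by
  intro a b c d e
  have hF := Pool.Agent.H122R2.N6.tri_noK4 h3 hK
  unfold Pool.Agent.H122R2.N6.five
  rw [hF a b c d, hF a b c e, hF a b d e, hF a c d e, hF b c d e]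
  rfl

theorem maskA : Pool.Agent.H37R3.Cop.Mask 97788 graphA :=
  ⟨by decide +kernel, by decide +kernel⟩

theorem maskB : Pool.Agent.H37R3.Cop.Mask 228027 graphB :=
  ⟨by decide +kernel, by decide +kernel⟩

theorem main (n : ℕ) (H : Finset (Finset (Fin n))) (h3 : ∀ e ∈ H, e.card = 3) (hK : K43Free H)
    (h : ¬ Induces graphA H ∨ ¬ Induces graphB H) : 15000 * H.card ≤ 1389 * n ^ 3 := by
  have h1 : 2500 * Pool.Agent.H37R3.Lag.TT (Pool.Agent.H122R2.N6.tri H) ≤ 1389 * n ^ 3 := by
    rcases h with h | h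
    · have h1 := Pool.Agent.H37R3.PA.main (Pool.Agent.H122R2.N6.tri H)
        ⟨Pool.Agent.H122R2.N6.tri_sy H, noB h3 hK, of_copy h3 maskA h⟩
      rwa [Fintype.card_fin] at h1
    · have h1 := Pool.Agent.H37R3.PB.main (Pool.Agent.H122R2.N6.tri H)
        ⟨Pool.Agent.H122R2.N6.tri_sy H, noB h3 hK, of_copy h3 maskB h⟩
      rwa [Fintype.card_fin] at h1
  have h2 := Pool.Agent.H122R2.N6.six_card_le h3
  unfold Pool.Agent.H37R3.Lag.TT at h1
  calc 15000 * H.card = 2500 * (6 * H.card) := by ring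
    _ ≤ 2500 * ∑ a, ∑ b, ∑ c, Pool.Agent.H122R2.N6.tri H a b c := Nat.mul_le_mul_left _ h2
    _ ≤ 1389 * n ^ 3 := h1

/-- A `K_4^3`-free 3-graph `H` on `n` vertices that contains no induced copy of `graphA`, or no
induced copy of `graphB`, has at most `(1389/15000) n³` edges; and for every `ε > 0` and all large
`n` it has at most `(0.5556 + ε) C(n,3)` edges. -/
theorem result :
    (∀ (n : ℕ) (H : Finset (Finset (Fin n))), (∀ e ∈ H, e.card = 3) → K43Free H →
      (¬ Induces graphA H ∨ ¬ Induces graphB H) → 15000 * H.card ≤ 1389 * n ^ 3) ∧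
    (∀ ε : ℝ, ε > 0 → ∃ N : ℕ, ∀ n : ℕ, N ≤ n → ∀ H : Finset (Finset (Fin n)),
      (∀ e ∈ H, e.card = 3) → K43Free H → (¬ Induces graphA H ∨ ¬ Induces graphB H) →
        (H.card : ℝ) ≤ (1389 / 2500 + ε) * ((n.choose 3 : ℕ) : ℝ)) := by
  refine ⟨main, ?_⟩
  intro ε hε
  obtain ⟨N, hN⟩ := exists_nat_gt (3 * (1389 / 2500 + ε) / ε)
  refine ⟨max N 3, fun n hn H h3 hK hI => ?_⟩
  have h := main n H h3 hK hI
  have hn3 : 3 ≤ n := (le_max_right _ _).trans hn
  have hnN : 3 * (1389 / 2500 + ε) / ε < (n : ℝ) :=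
    hN.trans_le (by exact_mod_cast (le_max_left _ _).trans hn)
  rw [div_lt_iff₀ hε] at hnN
  have hch : ((n.choose 3 : ℕ) : ℝ) = (n : ℝ) * (n - 1) * (n - 2) / 6 := by
    have h1 : n.choose 3 * 6 = n * (n - 1) * (n - 2) := by
      have := Nat.descFactorial_eq_factorial_mul_choose n 3
      have h2 : n.descFactorial 3 = (n - 2) * ((n - 1) * n) := by
        simp [Nat.descFactorial]
      rw [h2] at this
      have h3 : Nat.factorial 3 = 6 := rfl
      rw [h3] at this
      linarith
    have h4 : ((n.choose 3 * 6 : ℕ) : ℝ) = ((n * (n - 1) * (n - 2) : ℕ) : ℝ) := by rw [h1]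
    push_cast [Nat.cast_sub (show 1 ≤ n by omega), Nat.cast_sub (show 2 ≤ n by omega)] at h4
    linarith
  rw [hch]
  have hr : 15000 * (H.card : ℝ) ≤ 1389 * (n : ℝ) ^ 3 := by exact_mod_cast h
  have hn0 : (0 : ℝ) ≤ (n : ℝ) := by positivity
  have e1 : (n : ℝ) ^ 3 - 3 * (n : ℝ) ^ 2 ≤ (n : ℝ) * (n - 1) * (n - 2) := by nlinarith
  have e2 : 0 ≤ ((n : ℝ) * ε - 3 * (1389 / 2500 + ε)) * (n : ℝ) ^ 2 :=
    mul_nonneg (by linarith) (by positivity)
  have e3 := mul_le_mul_of_nonneg_left e1 (show (0 : ℝ) ≤ 1389 / 2500 + ε by positivity)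
  nlinarith

end Pool.Agent.Results.MP_f1799f_co.OneSixVertexGraph
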